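import Pool.Agent.Helper97.SZ.Goals

/-!
Project SZ, packet IS: groupoid properties of isomorphisms.
-/

set_option autoImplicit false

namespace Pool.Agent.Helper15.SZ

open Pool.Agent.Helper91.SY Pool.Agent.Helper97.SZ
open scoped ContDiff

section

variable {E : Type} [NormedAddCommGroup E] [NormedSpace ℝ E]

theorem sm_diff {g : E ≃ E} (h : Sm g) (x : E) : DifferentiableAt ℝ (fun x => g x) x :=
  h.1.differentiable (by norm_num) x

theorem sm_symm {g : E ≃ E} (h : Sm g) : Sm g.symm := ⟨h.2, h.1⟩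

theorem sm_trans {g g' : E ≃ E} (h : Sm g) (h' : Sm g') : Sm (g.trans g') :=
  ⟨h'.1.comp h.1, h.2.comp h'.2⟩

theorem fderiv_trans {g g' : E ≃ E} (h : Sm g) (h' : Sm g') (x u : E) :
    fderiv ℝ (fun x => (g.trans g') x) x u =
      fderiv ℝ (fun x => g' x) (g x) (fderiv ℝ (fun x => g x) x u) := by
  have h1 : HasFDerivAt (fun x => g x) (fderiv ℝ (fun x => g x) x) x := (sm_diff h x).hasFDerivAt
  have h2 : HasFDerivAt (fun x => g' x) (fderiv ℝ (fun x => g' x) (g x)) (g x) :=
    (sm_diff h' (g x)).hasFDerivAt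
  have h3 : HasFDerivAt (fun x => (g.trans g') x) _ x := h2.comp x h1
  rw [h3.fderiv]
  rfl

theorem iso_refl (K : Set E) (B : E → E →L[ℝ] E →L[ℝ] ℝ) : Iso K B B := by
  refine ⟨Equiv.refl E, ⟨contDiff_id, contDiff_id⟩, fun x _ => rfl, fun x u v => ?_⟩
  have h : fderiv ℝ (fun x : E => (Equiv.refl E) x) x = ContinuousLinearMap.id ℝ E :=
    (hasFDerivAt_id x).fderiv
  simp only [h]
  rfl

theorem iso_symm (K : Set E) (B B' : E → E →L[ℝ] E →L[ℝ] ℝ) (h : Iso K B B') :
    Iso K B' B := by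
  obtain ⟨g, hg, hK, hP⟩ := h
  refine ⟨g.symm, sm_symm hg, fun x hx => ?_, fun y u v => ?_⟩
  · rw [Equiv.symm_apply_eq]
    exact (hK x hx).symm
  · have hc : ∀ u, fderiv ℝ (fun x => g x) (g.symm y) (fderiv ℝ (fun x => g.symm x) y u) = u := by
      intro u
      rw [← fderiv_trans (sm_symm hg) hg y u]
      have h : fderiv ℝ (fun x : E => (g.symm.trans g) x) y = ContinuousLinearMap.id ℝ E := by
        have h5 : (fun x : E => (g.symm.trans g) x) = fun x => x := by
          funext x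
          simp
        rw [h5]
        exact (hasFDerivAt_id y).fderiv
      rw [h]
      rfl
    have h6 := hP (g.symm y) (fderiv ℝ (fun x => g.symm x) y u) (fderiv ℝ (fun x => g.symm x) y v)
    rw [hc, hc] at h6
    beta_reduce at h6
    rw [Equiv.apply_symm_apply] at h6
    exact h6.symm

theorem iso_trans (K K' : Set E) (B B' B'' : E → E →L[ℝ] E →L[ℝ] ℝ) (h : Iso K B B')
    (h' : Iso K' B' B'') : Iso (K ∪ K') B B'' := by
  obtain ⟨g, hg, hK, hP⟩ := h
  obtain ⟨g', hg', hK', hP'⟩ := h'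
  refine ⟨g.trans g', sm_trans hg hg', fun x hx => ?_, fun x u v => ?_⟩
  · rw [Set.mem_union, not_or] at hx
    rw [Equiv.trans_apply, hK x hx.1, hK' x hx.2]
  · rw [fderiv_trans hg hg', fderiv_trans hg hg']
    exact (hP' (g x) _ _).trans (hP x u v)

theorem iso_mono (K K' : Set E) (B B' : E → E →L[ℝ] E →L[ℝ] ℝ) (hKK : K ⊆ K')
    (h : Iso K B B') : Iso K' B B' := by
  obtain ⟨g, hg, hK, hP⟩ := h
  exact ⟨g, hg, fun x hx => hK x fun h1 => hx (hKK h1), hP⟩

theorem iso_translate (K : Set E) (B B' : E → E →L[ℝ] E →L[ℝ] ℝ) (c : E) (h : Iso K B B') :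
    Iso ((fun x => x + c) '' K) (fun x => B (x - c)) (fun x => B' (x - c)) := by
  obtain ⟨g, hg, hK, hP⟩ := h
  let g' : E ≃ E := (Equiv.subRight c).trans (g.trans (Equiv.addRight c))
  have hval : ∀ x, g' x = g (x - c) + c := fun x => rfl
  have hvals : ∀ x, g'.symm x = g.symm (x - c) + c := by
    intro x
    simp [g', sub_eq_add_neg]
  refine ⟨g', ⟨?_, ?_⟩, fun x hx => ?_, fun x u v => ?_⟩
  · exact (hg.1.comp (contDiff_id.sub contDiff_const)).add contDiff_const
  · rw [funext hvals]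
    exact (hg.2.comp (contDiff_id.sub contDiff_const)).add contDiff_const
  · rw [hval, hK (x - c), sub_add_cancel]
    intro h1
    exact hx ⟨x - c, h1, sub_add_cancel x c⟩
  · have hd : fderiv ℝ (fun x => g' x) x = fderiv ℝ (fun x => g x) (x - c) := by
      have h1 : HasFDerivAt (fun y : E => y - c) (ContinuousLinearMap.id ℝ E) x :=
        (hasFDerivAt_id x).sub_const c
      have h2 : HasFDerivAt (fun x => g x) (fderiv ℝ (fun x => g x) (x - c)) (x - c) :=
        (sm_diff hg (x - c)).hasFDerivAt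
      have h3 : HasFDerivAt (fun y => g (y - c) + c) _ x := (h2.comp x h1).add_const c
      have h4 : (fun x => g' x) = fun y => g (y - c) + c := rfl
      rw [h4, h3.fderiv]
      rfl
    change B' (g' x - c) _ _ = B (x - c) u v
    rw [hd, hval, add_sub_cancel_right]
    exact hP (x - c) u v

end

theorem is : StmtIS := by
  intro E _ _
  exact ⟨iso_refl, iso_symm, iso_trans, iso_mono, iso_translate⟩

end Pool.Agent.Helper15.SZ
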